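import Pool.Agent.CYE.StmtsB

set_option autoImplicit false

/-!
CYE row BAF: basic facts about a factorisation `Fm`.
-/

namespace Pool.Agent.CYE.H77

open Pool.Agent.CYE Pool.Agent.CYD

theorem not_dvd_totient {p m : ℕ} (hp : p.Prime) (hm : m ≠ 0)
    (hlt : ∀ l : ℕ, l.Prime → l ∣ m → l < p) : ¬ p ∣ m.totient := by
  intro hd
  rw [Nat.totient_eq_prod_factorization hm, Finsupp.prod] at hd
  obtain ⟨l, hl, hd⟩ := (hp.prime.dvd_finsetProd_iff _).1 hd
  have hl' : l.Prime ∧ l ∣ m := by
    have : l ∈ m.primeFactors := by simpa using hl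
    exact ⟨Nat.prime_of_mem_primeFactors this, Nat.dvd_of_mem_primeFactors this⟩
  have h1 := hlt l hl'.1 hl'.2
  rcases (Nat.Prime.dvd_mul hp).1 hd with h | h
  · have h2 := hp.dvd_of_dvd_pow h
    have h3 := Nat.le_of_dvd hl'.1.pos h2
    omega
  · have h2 := hl'.1.two_le
    have h3 := Nat.le_of_dvd (by omega) h
    omega

theorem baf : BafStmt := by
  intro p m g h F
  have hm : 3 ≤ m := F.hm
  have hm0 : m ≠ 0 := by omega
  have hodd : Odd m := F.odd
  have hl : (m.minFac).Prime := Nat.minFac_prime (by omega)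
  have hld : m.minFac ∣ m := Nat.minFac_dvd m
  have hl2 : m.minFac ≠ 2 := by
    intro h2
    rw [h2] at hld
    have := Nat.odd_iff.1 hodd
    omega
  have hl3 : 3 ≤ m.minFac := by
    have := hl.two_le
    omega
  have hlp := F.hlt _ hl hld
  have hp4 : p ≠ 4 := by
    intro h4
    have := F.hp
    rw [h4] at this
    exact absurd this (by norm_num)
  have hp5 : 5 ≤ p := by omega
  have h1 : ¬ p ∣ m.totient := not_dvd_totient F.hp hm0 F.hlt
  have hcop : Nat.Coprime p m := (Nat.Prime.coprime_iff_not_dvd F.hp).2 F.ndvd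
  have h2 : (p * m).totient = (p - 1) * m.totient := by
    rw [Nat.totient_mul hcop, Nat.totient_prime F.hp]
  refine ⟨hp5, h1, ?_, ?_, h2⟩
  · rw [h2]
    intro hd
    rcases (Nat.Prime.dvd_mul F.hp).1 hd with h | h
    · have h3 := Nat.le_of_dvd (by omega) h
      omega
    · exact h1 h
  · have h3 := Nat.totient_even (n := m) (by omega)
    have h4 : 0 < m.totient := Nat.totient_pos.2 (by omega)
    rcases h3 with ⟨r, hr⟩
    omega

end Pool.Agent.CYE.H77
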